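import Pool.Agent.CMG.Stmts

/-!
# Squad CMG, row ORT
-/

set_option autoImplicit false

open Set Topology MeasureTheory

namespace Pool.Agent.CMG.H1

theorem ort : OrtStmt := by
  intro K _ _ _ _ _ _ μ _ ψ hψ hmul hne
  obtain ⟨x₀, hx₀⟩ := hne
  have h1 : ∫ x, ((ψ (x₀ * x) : Circle) : ℂ) ∂μ = ∫ x, ((ψ x : Circle) : ℂ) ∂μ :=
    integral_mul_left_eq_self (fun x => ((ψ x : Circle) : ℂ)) x₀
  have h2 : ∀ x, ((ψ (x₀ * x) : Circle) : ℂ) = (ψ x₀ : ℂ) * (ψ x : ℂ) := by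
    intro x
    rw [hmul, Circle.coe_mul]
  simp_rw [h2] at h1
  rw [integral_const_mul] at h1
  have h3 : ((ψ x₀ : ℂ) - 1) * ∫ x, ((ψ x : Circle) : ℂ) ∂μ = 0 := by
    rw [sub_mul, h1, one_mul, sub_self]
  rcases mul_eq_zero.1 h3 with h4 | h4
  · exfalso
    apply hx₀
    apply Circle.ext
    rw [Circle.coe_one]
    exact sub_eq_zero.1 h4
  · exact h4

end Pool.Agent.CMG.H1
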